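import Mathlib
import Pool.Agent.Y734.R.Stms

/-!
# Job FIN: finitely many points with given norms of the differences (helper362)
-/

set_option autoImplicit false

namespace Pool.Agent.Y734.R.FIN

open Pool.Agent.Y734.M Pool.Agent.Y734.R

theorem ux_ne {r m : ℕ} (s : Fin r) {i j : Fin m} (h : i ≠ j) : ux r m s i - ux r m s j ≠ 0 := by
  intro h0
  have h1 : ux r m s i = ux r m s j := sub_eq_zero.1 h0
  unfold ux at h1
  have h2 := IsFractionRing.injective (MvPolynomial (Fin r × Fin m) ℚ) (UF r m) h1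
  have h3 := MvPolynomial.X_injective h2
  exact h (congrArg Prod.snd h3)

theorem uw_ne {r m : ℕ} (κ : Fin m × Fin m) : uw r m κ ≠ 0 := by
  unfold uw
  split_ifs with h
  · exact one_ne_zero
  · rw [Finset.prod_ne_zero_iff]
    exact fun s _ => ux_ne s h

/-- the coordinates are integral over the ring of the norms and their inverses -/
theorem val_claim {r m : ℕ} (hc : Comb r m) (s : Fin r) (i i₀ i₁ : Fin m) (h01 : i₀ ≠ i₁)
    (O : ValuationSubring (UF r m)) (hO : ∀ κ, O.valuation (uw r m κ) = 1) :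
    (ux r m s i - ux r m s i₀) / (ux r m s i₁ - ux r m s i₀) ∈ O := by
  by_cases hi : i = i₀
  · rw [hi, sub_self, zero_div]
    exact O.zero_mem
  have hne : ∀ (s : Fin r) (i j : Fin m), i ≠ j → O.valuation (ux r m s i - ux r m s j) ≠ 0 :=
    fun s i j h => (Valuation.ne_zero_iff _).2 (ux_ne s h)
  have hsym : ∀ (s : Fin r) (i j : Fin m),
      O.valuation (ux r m s i - ux r m s j) = O.valuation (ux r m s j - ux r m s i) := by
    intro s i j
    rw [← Valuation.map_neg, neg_sub]
  have hult : ∀ (s : Fin r) (i j l : Fin m), O.valuation (ux r m s i - ux r m s l) ≤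
      max (O.valuation (ux r m s i - ux r m s j)) (O.valuation (ux r m s j - ux r m s l)) := by
    intro s i j l
    have h := Valuation.map_add O.valuation (ux r m s i - ux r m s j) (ux r m s j - ux r m s l)
    rw [sub_add_sub_cancel] at h
    exact h
  have hprod : ∀ i j : Fin m, i ≠ j → ∏ s : Fin r, O.valuation (ux r m s i - ux r m s j) = 1 := by
    intro i j h
    have h1 := hO (i, j)
    unfold uw at h1
    rw [if_neg h, map_prod] at h1
    exact h1
  have h := hc O.ValueGroup O.ValueGroup (fun s i j => O.valuation (ux r m s i - ux r m s j))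
    (fun s i j => O.valuation (ux r m s i - ux r m s j)) hne hne hsym hsym hult hult
    (fun i j l hij hil => by
      simp only [hprod i j hij, hprod i l hil])
    s i i₀ i₁ i₀ hi h01.symm
  rw [← O.valuation_le_one_iff, map_div₀]
  rw [h.1, div_self (hne s i₁ i₀ h01.symm)]

/-- the norms of the differences, as polynomials -/
noncomputable def WW (r m : ℕ) (κ : Fin m × Fin m) : MvPolynomial (Fin r × Fin m) ℚ :=
  if κ.1 = κ.2 then 1 else ∏ s : Fin r, (MvPolynomial.X (s, κ.1) - MvPolynomial.X (s, κ.2))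

theorem map_WW (r m : ℕ) (κ : Fin m × Fin m) :
    algebraMap (MvPolynomial (Fin r × Fin m) ℚ) (UF r m) (WW r m κ) = uw r m κ := by
  unfold WW uw ux
  split_ifs
  · exact map_one _
  · rw [map_prod]
    refine Finset.prod_congr rfl fun s _ => ?_
    rw [map_sub]

/-- the equation of a coordinate -/
theorem exists_eq (hi : IntStmt) {r m : ℕ} (hc : Comb r m) (s : Fin r) (i i₀ i₁ : Fin m)
    (h01 : i₀ ≠ i₁) : ∃ (d : ℕ) (μ : Fin m × Fin m → ℕ)
      (G : Fin d → MvPolynomial (Fin m × Fin m) ℚ),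
      (∏ κ, WW r m κ ^ μ κ) * (MvPolynomial.X (s, i) - MvPolynomial.X (s, i₀)) ^ d +
        ∑ j : Fin d, MvPolynomial.aeval (WW r m) (G j) *
          ((MvPolynomial.X (s, i) - MvPolynomial.X (s, i₀)) ^ (j : ℕ) *
            (MvPolynomial.X (s, i₁) - MvPolynomial.X (s, i₀)) ^ (d - (j : ℕ))) = 0 := by
  obtain ⟨d, μ, G, h⟩ := hi (UF r m) (Fin m × Fin m) (uw r m)
    ((ux r m s i - ux r m s i₀) / (ux r m s i₁ - ux r m s i₀)) uw_ne
    (fun O hO => val_claim hc s i i₀ i₁ h01 O hO)
  refine ⟨d, μ, G, ?_⟩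
  apply IsFractionRing.injective (MvPolynomial (Fin r × Fin m) ℚ) (UF r m)
  have hb : ux r m s i₁ - ux r m s i₀ ≠ 0 := ux_ne s h01.symm
  have hG : ∀ j, algebraMap (MvPolynomial (Fin r × Fin m) ℚ) (UF r m)
      (MvPolynomial.aeval (WW r m) (G j)) = MvPolynomial.aeval (uw r m) (G j) := by
    intro j
    have h1 := MvPolynomial.comp_aeval_apply (WW r m)
      (algebraMap (MvPolynomial (Fin r × Fin m) ℚ) (UF r m)).toRatAlgHom (G j)
    have h2 : (fun κ => (algebraMap (MvPolynomial (Fin r × Fin m) ℚ) (UF r m)).toRatAlgHom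
        (WW r m κ)) = uw r m := funext fun κ => map_WW r m κ
    rw [h2] at h1
    exact h1
  have hX : ∀ j : Fin m, algebraMap (MvPolynomial (Fin r × Fin m) ℚ) (UF r m)
      (MvPolynomial.X (s, j)) = ux r m s j := fun j => rfl
  rw [map_zero, map_add, map_mul, map_prod, map_pow, map_sub, hX, hX, map_sum]
  simp only [map_pow, map_mul, map_sub, hX, hG, map_WW]
  have h3 := congrArg (fun z => z * (ux r m s i₁ - ux r m s i₀) ^ d) h
  simp only [zero_mul, add_mul, Finset.sum_mul] at h3
  rw [← h3]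
  congr 1
  · rw [div_pow, mul_assoc, div_mul_cancel₀ _ (pow_ne_zero _ hb)]
  · refine Finset.sum_congr rfl fun j _ => ?_
    rw [mul_assoc]
    congr 1
    have h4 : (ux r m s i₁ - ux r m s i₀) ^ d = (ux r m s i₁ - ux r m s i₀) ^ (j : ℕ) *
        (ux r m s i₁ - ux r m s i₀) ^ (d - (j : ℕ)) := by
      rw [← pow_add, Nat.add_sub_cancel' j.2.le]
    rw [h4, ← mul_assoc, div_pow, div_mul_cancel₀ _ (pow_ne_zero _ hb)]

/-- the equation of a coordinate over `k` -/
noncomputable def PP {k : Type} [Field k] [NumberField k] {m : ℕ} (a : Fin m × Fin m → k) (d : ℕ)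
    (μ : Fin m × Fin m → ℕ) (G : Fin d → MvPolynomial (Fin m × Fin m) ℚ) : Polynomial k :=
  Polynomial.C (∏ κ, a κ ^ μ κ) * Polynomial.X ^ d +
    ∑ j : Fin d, Polynomial.C (MvPolynomial.aeval a (G j)) * Polynomial.X ^ (j : ℕ)

theorem PP_ne {k : Type} [Field k] [NumberField k] {m : ℕ} (a : Fin m × Fin m → k)
    (ha : ∀ κ, a κ ≠ 0) (d : ℕ) (μ : Fin m × Fin m → ℕ)
    (G : Fin d → MvPolynomial (Fin m × Fin m) ℚ) : PP a d μ G ≠ 0 := by
  intro h
  have h1 := congrArg (fun p => Polynomial.coeff p d) h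
  unfold PP at h1
  simp only [Polynomial.coeff_add, Polynomial.finsetSum_coeff, Polynomial.coeff_C_mul_X_pow,
    Polynomial.coeff_zero, if_true] at h1
  rw [Finset.sum_eq_zero, add_zero] at h1
  · exact (Finset.prod_ne_zero_iff.2 fun κ _ => pow_ne_zero _ (ha κ)) h1
  · intro j _
    rw [if_neg]
    have := j.2
    omega

theorem nd_ne (k : Type) {L : Type} [Field k] [NumberField k] [Field L] [NumberField L]
    [Algebra k L] {m : ℕ} (x : Fin m → L) (hx : Function.Injective x) (κ : Fin m × Fin m) :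
    nd k x κ ≠ 0 := by
  unfold nd
  split_ifs with h
  · exact one_ne_zero
  · rw [Ne, Algebra.norm_eq_zero_iff, sub_eq_zero]
    exact fun h' => h (hx h')

/-- specialisation -/
theorem spec {r m : ℕ} (s : Fin r) (i i₀ i₁ : Fin m) (d : ℕ) (μ : Fin m × Fin m → ℕ)
    (G : Fin d → MvPolynomial (Fin m × Fin m) ℚ)
    (h : (∏ κ, WW r m κ ^ μ κ) * (MvPolynomial.X (s, i) - MvPolynomial.X (s, i₀)) ^ d +
        ∑ j : Fin d, MvPolynomial.aeval (WW r m) (G j) *
          ((MvPolynomial.X (s, i) - MvPolynomial.X (s, i₀)) ^ (j : ℕ) *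
            (MvPolynomial.X (s, i₁) - MvPolynomial.X (s, i₀)) ^ (d - (j : ℕ))) = 0)
    (k L : Type) [Field k] [NumberField k] [Field L] [NumberField L] [Algebra k L]
    (hr : Module.finrank k L = r) (x : Fin m → L) (hx0 : x i₀ = 0) (hx1 : x i₁ = 1) :
    Polynomial.aeval (x i) (PP (nd k x) d μ G) = 0 := by
  classical
  have hfin : FiniteDimensional k L := Module.Finite.of_restrictScalars_finite ℚ k L
  have hsep : Algebra.IsSeparable k L := inferInstance
  have hcard : Fintype.card (L →ₐ[k] AlgebraicClosure k) = r := by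
    rw [AlgHom.card, hr]
  set e : Fin r ≃ (L →ₐ[k] AlgebraicClosure k) := (Fintype.equivFinOfCardEq hcard).symm
  set Θ : MvPolynomial (Fin r × Fin m) ℚ →ₐ[ℚ] AlgebraicClosure k :=
    MvPolynomial.aeval (fun q : Fin r × Fin m => e q.1 (x q.2)) with hΘ
  have hΘX : ∀ (s : Fin r) (j : Fin m), Θ (MvPolynomial.X (s, j)) = e s (x j) := by
    intro s j
    rw [hΘ, MvPolynomial.aeval_X]
  have hΘW : ∀ κ, Θ (WW r m κ) = algebraMap k (AlgebraicClosure k) (nd k x κ) := by
    intro κ
    unfold WW nd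
    split_ifs with hκ
    · rw [map_one, map_one]
    · rw [map_prod, Algebra.norm_eq_prod_embeddings k (AlgebraicClosure k),
        ← Equiv.prod_comp e]
      refine Finset.prod_congr rfl fun s _ => ?_
      rw [map_sub, hΘX, hΘX, map_sub]
  have hΘG : ∀ j, Θ (MvPolynomial.aeval (WW r m) (G j)) =
      algebraMap k (AlgebraicClosure k) (MvPolynomial.aeval (nd k x) (G j)) := by
    intro j
    rw [MvPolynomial.comp_aeval_apply]
    have h1 := MvPolynomial.comp_aeval_apply (nd k x)
      (algebraMap k (AlgebraicClosure k)).toRatAlgHom (G j)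
    have h2 : (fun κ => (algebraMap k (AlgebraicClosure k)).toRatAlgHom (nd k x κ)) =
        fun κ => Θ (WW r m κ) := funext fun κ => (hΘW κ).symm
    rw [h2] at h1
    exact h1.symm
  have h1 := congrArg Θ h
  rw [map_zero, map_add, map_mul, map_prod, map_pow, map_sub, hΘX, hΘX, map_sum] at h1
  simp only [map_pow, map_mul, map_sub, hΘX, hΘG, hΘW, hx0, hx1, map_zero, map_one, sub_zero,
    one_pow, mul_one] at h1
  apply (e s).toRingHom.injective
  unfold PP
  have h2 : (e s).toRingHom (Polynomial.aeval (x i) (Polynomial.C (∏ κ, nd k x κ ^ μ κ) *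
      Polynomial.X ^ d + ∑ j : Fin d, Polynomial.C (MvPolynomial.aeval (nd k x) (G j)) *
        Polynomial.X ^ (j : ℕ))) =
      (∏ κ, algebraMap k (AlgebraicClosure k) (nd k x κ) ^ μ κ) * (e s (x i)) ^ d +
        ∑ j : Fin d, algebraMap k (AlgebraicClosure k) (MvPolynomial.aeval (nd k x) (G j)) *
          (e s (x i)) ^ (j : ℕ) := by
    change e s _ = _
    simp only [map_add, map_mul, map_sum, map_pow, Polynomial.aeval_C, Polynomial.aeval_X,
      map_prod, AlgHom.commutes]
  rw [h2, h1, map_zero]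

/-- There are only finitely many points with given norms of the differences. -/
theorem finn (hi : IntStmt) : FinStmt := by
  classical
  intro r m hr hc k _ _ i₀ i₁ h01 a
  by_cases ha : ∀ κ, a κ ≠ 0
  · set s : Fin r := ⟨0, hr⟩
    choose d μ G hG using fun i => exists_eq hi hc s i i₀ i₁ h01
    have hfin : ∀ i, Set.Finite {z : ℂ | ∃ ψ : k →+* ℂ, ((PP a (d i) (μ i) (G i)).map ψ).IsRoot z} := by
      intro i
      have h1 : {z : ℂ | ∃ ψ : k →+* ℂ, ((PP a (d i) (μ i) (G i)).map ψ).IsRoot z} =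
          ⋃ ψ : k →+* ℂ, {z : ℂ | ((PP a (d i) (μ i) (G i)).map ψ).IsRoot z} := by
        ext z
        simp
      rw [h1]
      refine Set.finite_iUnion fun ψ => Polynomial.finite_setOfPred_isRoot ?_
      rw [Polynomial.map_ne_zero_iff ψ.injective]
      exact PP_ne a ha _ _ _
    refine (Set.Finite.pi' hfin).subset ?_
    rintro y ⟨L, _, _, _, x, φ, h1, h2, h3, h4, h5, rfl⟩ i
    refine ⟨φ.comp (algebraMap k L), ?_⟩
    have h6 := spec s i i₀ i₁ (d i) (μ i) (G i) (hG i) k L h1 x h2 h3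
    rw [h5] at h6
    rw [Polynomial.IsRoot, Polynomial.eval_map, ← Polynomial.hom_eval₂]
    rw [Polynomial.aeval_def] at h6
    rw [h6, map_zero]
  · refine Set.finite_empty.subset ?_
    rintro y ⟨L, _, _, _, x, φ, h1, h2, h3, h4, h5, rfl⟩
    exfalso
    apply ha
    intro κ
    rw [← h5]
    exact nd_ne k x h4 κ

end Pool.Agent.Y734.R.FIN
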